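import Pool.Agent.Helper88.FL.Htpy

/-!
# An elementwise form of the Kan condition
-/

open CategoryTheory MonoidalCategory Simplicial Opposite

set_option autoImplicit false

namespace Pool.Agent.Helper58.FLL

universe u

/-- Compatible families of simplices: the faces `j ≠ i` of a horn. -/
def Cmpt (K : SSet.{u}) {n : ℕ} {i : Fin (n + 2)} (y : ∀ j : Fin (n + 2), j ≠ i → K.obj (op ⦋n⦌)) :
    Prop :=
  ∀ (j k : Fin (n + 2)) (hj : j ≠ i) (hk : k ≠ i) (l : SimplexCategory) (α β : l ⟶ ⦋n⦌),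
    α ≫ SimplexCategory.δ j = β ≫ SimplexCategory.δ k →
      K.map α.op (y j hj) = K.map β.op (y k hk)

theorem yE_symm (K : SSet.{u}) {l m : SimplexCategory} (α : l ⟶ m) (x : K.obj (op m)) :
    (SSet.stdSimplex.map α ≫ SSet.yonedaEquiv.symm x : _ ⟶ K) =
      SSet.yonedaEquiv.symm (K.map α.op x) :=
  SSet.yonedaEquiv_symm_naturality_left α x

theorem yE_inj {K : SSet.{u}} {m : SimplexCategory} {x y : K.obj (op m)}
    (h : (SSet.yonedaEquiv.symm x : _ ⟶ K) = SSet.yonedaEquiv.symm y) : x = y :=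
  SSet.yonedaEquiv.symm.injective h

theorem kan_iff (K : SSet.{u}) : SSet.KanComplex K ↔
    ∀ (n : ℕ) (i : Fin (n + 2)) (y : ∀ j : Fin (n + 2), j ≠ i → K.obj (op ⦋n⦌)), Cmpt K y →
      ∃ z : K.obj (op ⦋n + 1⦌), ∀ j hj, K.map (SimplexCategory.δ j).op z = y j hj := by
  rw [SSet.KanComplex.iff]
  constructor
  · intro h n i y hy
    have hc : SSet.horn.IsCompatible (i := i)
        (fun j hj => (SSet.yonedaEquiv.symm (y j hj) : _ ⟶ K)) := by
      cases n with
      | zero => trivial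
      | succ n =>
        rw [SSet.horn.isCompatible_iff]
        intro j k hj hk hjk
        show SSet.stdSimplex.map _ ≫ _ = SSet.stdSimplex.map _ ≫ _
        rw [yE_symm, yE_symm]
        refine congrArg _ (hy j k hj hk _ _ _ ?_)
        obtain ⟨j, rfl⟩ := j.eq_castSucc_of_ne_last (Fin.ne_last_of_lt hjk)
        obtain ⟨k, rfl⟩ := k.eq_succ_of_ne_zero (Fin.ne_zero_of_lt hjk)
        rw [Fin.pred_succ, Fin.castPred_castSucc, SimplexCategory.δ_comp_δ (by
          rw [Fin.le_def]
          rw [Fin.lt_def] at hjk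
          simp only [Fin.val_castSucc, Fin.val_succ] at hjk
          omega)]
    obtain ⟨φ, hφ⟩ := h _ hc
    refine ⟨SSet.yonedaEquiv φ, fun j hj => ?_⟩
    apply yE_inj
    rw [← yE_symm, Equiv.symm_apply_apply]
    exact hφ j hj
  · intro h n i f hf
    obtain ⟨φ, hφ⟩ := hf.exists_desc
    have hy : Cmpt K (fun j (hj : j ≠ i) => SSet.yonedaEquiv (f j hj)) := by
      intro j k hj hk l α β e
      apply yE_inj
      rw [← yE_symm, ← yE_symm, Equiv.symm_apply_apply, Equiv.symm_apply_apply, ← hφ, ← hφ,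
        ← Category.assoc, ← Category.assoc]
      congr 1
      rw [← cancel_mono (SSet.Subcomplex.ι _), Category.assoc, Category.assoc, SSet.horn.ι_ι,
        SSet.horn.ι_ι]
      exact (SSet.stdSimplex.map_comp _ _).symm.trans ((congrArg SSet.stdSimplex.map e).trans
        (SSet.stdSimplex.map_comp _ _))
    obtain ⟨z, hz⟩ := h n i _ hy
    refine ⟨SSet.yonedaEquiv.symm z, fun j hj => ?_⟩
    show SSet.stdSimplex.map _ ≫ _ = _
    rw [yE_symm, hz, Equiv.symm_apply_apply]

end Pool.Agent.Helper58.FLL
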